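import Mathlib
import Pool.Agent.Helper92.Jones.Core

/-!
A positive answer to Q1 of MP_3a3191_gt for all Hausdorff continua: if Jones's set function `T` is
continuous for the continuum `S` and `T(p)` has nonempty interior for some point `p`, then `S` is
indecomposable.
-/

set_option autoImplicit false

universe u

open Set

namespace Pool.Agent.Results.MP_3a3191_gt.JonesTIndecomposable

theorem result (S : Type u) [TopologicalSpace S] [CompactSpace S] [T2Space S] [ConnectedSpace S]
    (hT : Helper92.Jones.TContinuous S)
    (hp : ∃ p : S, (interior (Helper92.Jones.T ({p} : Set S))).Nonempty) :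
    ¬ ∃ A B : Set S, Helper92.Jones.IsSubcontinuum A ∧ Helper92.Jones.IsSubcontinuum B ∧
      A ≠ univ ∧ B ≠ univ ∧ A ∪ B = univ :=
  Helper92.Jones.main hT hp

end Pool.Agent.Results.MP_3a3191_gt.JonesTIndecomposable
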